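import Mathlib

/-!
# MP_bda3cd_nt: a satisfactory coloring of the 14-smooth numbers which does not extend

Let `g` be the homomorphism from the 14-smooth numbers to `ℤ/14` with
`g 2 = 1, g 3 = 4, g 5 = 10, g 7 = 12, g 11 = 7, g 13 = 9`. It is injective on `{1, …, 14}`, and
`g i ≡ g j (mod 7)` exactly for the pairs `{1,11}, {2,9}, {3,10}, {4,13}, {5,8}, {6,7}, {12,14}`.
Change `g x` to `g x + 7` for all `x` with `7 ∣ g x` which are not powers of `11`. This is still
injective on every set `{x, 2x, …, 14x}`. The color of `11` cannot occur on the set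
`{9/2, 2 · 9/2, …, 14 · 9/2}` in an extension.
-/

set_option autoImplicit false

namespace Pool.Agent.Results.MP_bda3cd_nt.FourteenColors

/-- `K n`: the positive integers all of whose prime factors are at most `n`. -/
def K (n : ℕ) : Set ℕ := {m | 0 < m ∧ ∀ p : ℕ, p.Prime → p ∣ m → p ≤ n}

/-- `hatK n`: the rational numbers `a / b` with `a, b ∈ K n`. -/
def hatK (n : ℕ) : Set ℚ := {q | ∃ a ∈ K n, ∃ b ∈ K n, q = (a : ℚ) / (b : ℚ)}

/-- `c` (only its values on `K n` matter) is an `n`-satisfactory coloring of `K n`: it takes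
values in `{1, …, n}`, `c i = i` for `1 ≤ i ≤ n`, and `c (i x) ≠ c (j x)` for all `x ∈ K n` and
`1 ≤ i < j ≤ n`. -/
def SatisfactoryK (n : ℕ) (c : ℕ → ℕ) : Prop :=
  (∀ x ∈ K n, 1 ≤ c x ∧ c x ≤ n) ∧ (∀ i, 1 ≤ i → i ≤ n → c i = i) ∧
    ∀ x ∈ K n, ∀ i j : ℕ, 1 ≤ i → i < j → j ≤ n → c (i * x) ≠ c (j * x)

/-- `c` (only its values on `hatK n` matter) is an `n`-satisfactory coloring of `hatK n`. -/
def SatisfactoryHatK (n : ℕ) (c : ℚ → ℕ) : Prop :=
  (∀ x ∈ hatK n, 1 ≤ c x ∧ c x ≤ n) ∧ (∀ i : ℕ, 1 ≤ i → i ≤ n → c (i : ℚ) = i) ∧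
    ∀ x ∈ hatK n, ∀ i j : ℕ, 1 ≤ i → i < j → j ≤ n → c ((i : ℚ) * x) ≠ c ((j : ℚ) * x)

/-- the homomorphism, as a natural number -/
noncomputable def g (x : ℕ) : ℕ :=
  x.factorization 2 + 4 * x.factorization 3 + 10 * x.factorization 5 + 12 * x.factorization 7 +
    7 * x.factorization 11 + 9 * x.factorization 13

lemma g_mul {a b : ℕ} (ha : a ≠ 0) (hb : b ≠ 0) : g (a * b) = g a + g b := by
  unfold g
  rw [Nat.factorization_mul ha hb]
  simp only [Finsupp.coe_add, Pi.add_apply]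
  ring

lemma g_one : g 1 = 0 := by simp [g]

lemma g_2 : g 2 = 1 := by
  unfold g; rw [Nat.prime_two.factorization]; simp

lemma g_3 : g 3 = 4 := by
  unfold g; rw [Nat.prime_three.factorization]; simp

lemma g_5 : g 5 = 10 := by
  unfold g; rw [Nat.prime_five.factorization]; simp

lemma g_7 : g 7 = 12 := by
  unfold g; rw [(by norm_num : Nat.Prime 7).factorization]; simp

lemma g_11 : g 11 = 7 := by
  unfold g; rw [(by norm_num : Nat.Prime 11).factorization]; simp

lemma g_13 : g 13 = 9 := by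
  unfold g; rw [(by norm_num : Nat.Prime 13).factorization]; simp

/-- divisible by `2`, `3`, `5`, `7` or `13` -/
def Dv (x : ℕ) : Prop := 2 ∣ x ∨ 3 ∣ x ∨ 5 ∣ x ∨ 7 ∣ x ∨ 13 ∣ x

instance (x : ℕ) : Decidable (Dv x) := by unfold Dv; infer_instance

lemma Dv_mul (a b : ℕ) : Dv (a * b) ↔ Dv a ∨ Dv b := by
  have h2 : (2 ∣ a * b) ↔ (2 ∣ a ∨ 2 ∣ b) := Nat.prime_two.dvd_mul
  have h3 : (3 ∣ a * b) ↔ (3 ∣ a ∨ 3 ∣ b) := Nat.prime_three.dvd_mul
  have h5 : (5 ∣ a * b) ↔ (5 ∣ a ∨ 5 ∣ b) := Nat.prime_five.dvd_mul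
  have h7 : (7 ∣ a * b) ↔ (7 ∣ a ∨ 7 ∣ b) := (by norm_num : Nat.Prime 7).dvd_mul
  have h13 : (13 ∣ a * b) ↔ (13 ∣ a ∨ 13 ∣ b) := (by norm_num : Nat.Prime 13).dvd_mul
  unfold Dv
  rw [h2, h3, h5, h7, h13]
  constructor
  · rintro ((h | h) | (h | h) | (h | h) | (h | h) | (h | h)) <;> simp [h]
  · rintro ((h | h | h | h | h) | (h | h | h | h | h)) <;> simp [h]

/-- the changed value, from the value `m` of `g` and the truth value `b` of `Dv` -/
def val (m : ℕ) (b : Bool) : ℕ := (m + if 7 ∣ m ∧ b = true then 7 else 0) % 14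

/-- the color with a given value -/
def tbl : ℕ → ℕ
  | 0 => 1 | 1 => 2 | 2 => 4 | 3 => 8 | 4 => 3 | 5 => 6 | 6 => 12 | 7 => 11 | 8 => 9 | 9 => 13
  | 10 => 5 | 11 => 10 | 12 => 7 | _ => 14

/-- the values of `g` on `{1, …, 14}` modulo `14` -/
def gi : ℕ → ℕ
  | 1 => 0 | 2 => 1 | 3 => 4 | 4 => 2 | 5 => 10 | 6 => 5 | 7 => 12 | 8 => 3 | 9 => 8 | 10 => 11
  | 11 => 7 | 12 => 6 | 13 => 9 | _ => 13

/-- the coloring -/
noncomputable def col (x : ℕ) : ℕ := tbl (val (g x) (decide (Dv x)))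

lemma tbl_inj : ∀ a < 14, ∀ b < 14, tbl a = tbl b → a = b := by decide

lemma tbl_range : ∀ a < 14, 1 ≤ tbl a ∧ tbl a ≤ 14 := by decide

lemma val_lt (m : ℕ) (b : Bool) : val m b < 14 := Nat.mod_lt _ (by norm_num)

lemma val_mod (m : ℕ) (b : Bool) : val m b = val (m % 14) b := by
  unfold val
  have : (7 ∣ m ∧ b = true) ↔ (7 ∣ m % 14 ∧ b = true) := by
    rw [show (7 ∣ m ↔ 7 ∣ m % 14) by omega]
  by_cases h : 7 ∣ m ∧ b = true
  · rw [if_pos h, if_pos (this.1 h)]; omega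
  · rw [if_neg h, if_neg (fun hh => h (this.2 hh))]; omega

lemma g_small : ∀ i, 1 ≤ i → i ≤ 14 → g i % 14 = gi i := by
  intro i h1 h2
  have e4 : g 4 = 2 := by rw [show (4 : ℕ) = 2 * 2 by norm_num, g_mul (by norm_num) (by norm_num), g_2]
  have e6 : g 6 = 5 := by
    rw [show (6 : ℕ) = 2 * 3 by norm_num, g_mul (by norm_num) (by norm_num), g_2, g_3]
  have e8 : g 8 = 3 := by
    rw [show (8 : ℕ) = 2 * 4 by norm_num, g_mul (by norm_num) (by norm_num), g_2, e4]
  have e9 : g 9 = 8 := by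
    rw [show (9 : ℕ) = 3 * 3 by norm_num, g_mul (by norm_num) (by norm_num), g_3]
  have e10 : g 10 = 11 := by
    rw [show (10 : ℕ) = 2 * 5 by norm_num, g_mul (by norm_num) (by norm_num), g_2, g_5]
  have e12 : g 12 = 6 := by
    rw [show (12 : ℕ) = 3 * 4 by norm_num, g_mul (by norm_num) (by norm_num), g_3, e4]
  have e14 : g 14 = 13 := by
    rw [show (14 : ℕ) = 2 * 7 by norm_num, g_mul (by norm_num) (by norm_num), g_2, g_7]
  interval_cases i
  · rw [g_one]; rfl
  · rw [g_2]; rfl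
  · rw [g_3]; rfl
  · rw [e4]; rfl
  · rw [g_5]; rfl
  · rw [e6]; rfl
  · rw [g_7]; rfl
  · rw [e8]; rfl
  · rw [e9]; rfl
  · rw [e10]; rfl
  · rw [g_11]; rfl
  · rw [e12]; rfl
  · rw [g_13]; rfl
  · rw [e14]; rfl

/-- the finite check -/
def check : Bool :=
  (List.range 14).all fun A => [true, false].all fun b => (List.range 15).all fun i =>
    (List.range 15).all fun j => i == 0 || !(decide (i < j)) ||
      (val ((gi i + A) % 14) (decide (Dv i) || b) != val ((gi j + A) % 14) (decide (Dv j) || b))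

lemma check_true : check = true := by decide +kernel

lemma core (A : ℕ) (hA : A < 14) (b : Bool) (i : ℕ) (hi : i < 15) (j : ℕ) (hj : j < 15)
    (h1 : 1 ≤ i) (hij : i < j) :
    val ((gi i + A) % 14) (decide (Dv i) || b) ≠ val ((gi j + A) % 14) (decide (Dv j) || b) := by
  have h := check_true
  unfold check at h
  rw [List.all_eq_true] at h
  have h2 := h A (List.mem_range.2 hA)
  rw [List.all_eq_true] at h2
  have h3 := h2 b (by cases b <;> simp)
  rw [List.all_eq_true] at h3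
  have h4 := h3 i (List.mem_range.2 hi)
  rw [List.all_eq_true] at h4
  have h5 := h4 j (List.mem_range.2 hj)
  have h6 : (i == 0) = false := by simp; omega
  rw [h6, Bool.false_or, decide_eq_true hij, Bool.not_true, Bool.false_or] at h5
  exact bne_iff_ne.1 h5

lemma col_mul (i x : ℕ) (h1 : 1 ≤ i) (h2 : i ≤ 14) (hx : x ≠ 0) :
    col (i * x) = tbl (val ((gi i + g x % 14) % 14) (decide (Dv i) || decide (Dv x))) := by
  have e1 : (g i + g x) % 14 = (gi i + g x % 14) % 14 := by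
    rw [← g_small i h1 h2]; omega
  have e2 : decide (Dv (i * x)) = (decide (Dv i) || decide (Dv x)) := by
    rw [← Bool.decide_or]
    exact decide_eq_decide.2 (Dv_mul i x)
  unfold col
  rw [g_mul (by omega) hx, val_mod, e1, e2]

lemma sat : SatisfactoryK 14 col := by
  refine ⟨fun x _ => tbl_range _ (val_lt _ _), ?_, ?_⟩
  · intro i h1 h2
    have h := col_mul i 1 h1 h2 one_ne_zero
    rw [mul_one, g_one] at h
    rw [h]
    interval_cases i <;> decide
  · intro x hx i j h1 hij hj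
    have hx0 : x ≠ 0 := hx.1.ne'
    rw [col_mul i x h1 (by omega) hx0, col_mul j x (by omega) hj hx0]
    intro h
    exact core (g x % 14) (Nat.mod_lt _ (by norm_num)) (decide (Dv x)) i (by omega) j (by omega) h1
      hij (tbl_inj _ (val_lt _ _) _ (val_lt _ _) h)

/-- the color of a product of two small numbers -/
lemma col_two (i j : ℕ) (h1 : 1 ≤ i) (h2 : i ≤ 14) (h3 : 1 ≤ j) (h4 : j ≤ 14) :
    col (i * j) = tbl (val ((gi i + gi j) % 14) (decide (Dv i) || decide (Dv j))) := by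
  rw [col_mul i j h1 h2 (by omega), g_small j h3 h4]

lemma mem_K {m : ℕ} (h : m ∣ 2 ^ 9 * 3 ^ 9 * 5 * 7 * 11 * 13) : m ∈ K 14 := by
  refine ⟨Nat.pos_of_ne_zero ?_, ?_⟩
  · rintro rfl
    norm_num at h
  · intro p hp hpm
    have h1 := hpm.trans h
    by_contra hcon
    push Not at hcon
    have hp1 : ∀ q : ℕ, q.Prime → q ≤ 14 → ¬ p ∣ q := by
      intro q hq hq2 hpq
      have := (Nat.prime_dvd_prime_iff_eq hp hq).1 hpq
      omega
    rcases (Nat.Prime.dvd_mul hp).1 h1 with h1 | h1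
    · rcases (Nat.Prime.dvd_mul hp).1 h1 with h1 | h1
      · rcases (Nat.Prime.dvd_mul hp).1 h1 with h1 | h1
        · rcases (Nat.Prime.dvd_mul hp).1 h1 with h1 | h1
          · rcases (Nat.Prime.dvd_mul hp).1 h1 with h1 | h1
            · exact hp1 2 (by norm_num) (by norm_num) (hp.dvd_of_dvd_pow h1)
            · exact hp1 3 (by norm_num) (by norm_num) (hp.dvd_of_dvd_pow h1)
          · exact hp1 5 (by norm_num) (by norm_num) h1
        · exact hp1 7 (by norm_num) (by norm_num) h1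
      · exact hp1 11 (by norm_num) (by norm_num) h1
    · exact hp1 13 (by norm_num) (by norm_num) h1

/-- There is a `14`-satisfactory coloring of `K 14` which is not the restriction of a
`14`-satisfactory coloring of `hatK 14`. -/
theorem not_extendable : ∃ c : ℕ → ℕ, SatisfactoryK 14 c ∧
    ¬ ∃ c' : ℚ → ℕ, SatisfactoryHatK 14 c' ∧ ∀ x ∈ K 14, c' (x : ℚ) = c x := by
  refine ⟨col, sat, ?_⟩
  rintro ⟨c', ⟨hr, -, hc⟩, hext⟩
  have half : ∀ y : ℕ, y ∣ 2 ^ 9 * 3 ^ 9 * 5 * 7 * 11 * 13 → ((y : ℚ) / 2) ∈ hatK 14 := by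
    intro y hy
    exact ⟨y, mem_K hy, 2, mem_K (by norm_num), by norm_num⟩
  -- exclusion: `i (y/2)` has not the color `11` if the integer `j y / 2` has
  have excl : ∀ y : ℕ, y ∣ 2 ^ 9 * 3 ^ 9 * 5 * 7 * 11 * 13 → ∀ i j z : ℕ, 1 ≤ i → i ≤ 14 → 1 ≤ j →
      j ≤ 14 → i ≠ j → j * y = 2 * z → z ∈ K 14 → col z = 11 → c' ((i : ℚ) * ((y : ℚ) / 2)) ≠ 11 := by
    intro y hy i j z hi1 hi2 hj1 hj2 hij hz hzK hcz h
    have e : ((j : ℚ) * ((y : ℚ) / 2)) = (z : ℚ) := by
      have : ((j * y : ℕ) : ℚ) = ((2 * z : ℕ) : ℚ) := by rw [hz]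
      push_cast at this
      linarith
    have h2 : c' ((j : ℚ) * ((y : ℚ) / 2)) = 11 := by rw [e, hext z hzK, hcz]
    rcases lt_or_gt_of_ne hij with hlt | hlt
    · exact hc _ (half y hy) i j hi1 hlt hj2 (h.trans h2.symm)
    · exact hc _ (half y hy) j i hj1 hlt hi2 (h2.trans h.symm)
  have c15 : col 15 = 11 := by
    rw [show (15 : ℕ) = 3 * 5 by norm_num, col_two 3 5 (by norm_num) (by norm_num) (by norm_num)
      (by norm_num)]; decide
  have c28 : col 28 = 11 := by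
    rw [show (28 : ℕ) = 2 * 14 by norm_num, col_two 2 14 (by norm_num) (by norm_num) (by norm_num)
      (by norm_num)]; decide
  have c108 : col 108 = 11 := by
    rw [show (108 : ℕ) = 9 * 12 by norm_num, col_two 9 12 (by norm_num) (by norm_num) (by norm_num)
      (by norm_num)]; decide
  have c11 : col 11 = 11 := sat.2.1 11 (by norm_num) (by norm_num)
  have c78 : col 78 = 11 := by
    rw [show (78 : ℕ) = 6 * 13 by norm_num, col_two 6 13 (by norm_num) (by norm_num) (by norm_num)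
      (by norm_num)]; decide
  have c9 : ∀ j, 1 ≤ j → j ≤ 7 → col (9 * j) ≠ 11 := by
    intro j h1 h2
    rw [col_two 9 j (by norm_num) (by norm_num) h1 (by omega)]
    interval_cases j <;> decide
  -- the color `11` occurs on `{9/2, ..., 14 * 9/2}`
  obtain ⟨i, hi, hi11⟩ : ∃ i : ℕ, i ∈ Finset.Icc 1 14 ∧
      c' ((i : ℚ) * (((9 : ℕ) : ℚ) / 2)) = 11 := by
    have hmem : (((9 : ℕ) : ℚ) / 2) ∈ hatK 14 := half 9 (by norm_num)
    have hmaps : Set.MapsTo (fun i : ℕ => c' ((i : ℚ) * (((9 : ℕ) : ℚ) / 2)))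
        (Finset.Icc 1 14 : Finset ℕ) (Finset.Icc 1 14 : Finset ℕ) := by
      intro i hi
      rw [Finset.mem_coe, Finset.mem_Icc] at hi ⊢
      apply hr
      refine ⟨i * 9, ?_, 2, mem_K (by norm_num), by push_cast; ring⟩
      obtain ⟨h1, h2⟩ := hi
      apply mem_K
      interval_cases i <;> norm_num
    have hinj : Set.InjOn (fun i : ℕ => c' ((i : ℚ) * (((9 : ℕ) : ℚ) / 2)))
        (Finset.Icc 1 14 : Finset ℕ) := by
      intro i hi j hj hij
      rw [Finset.mem_coe, Finset.mem_Icc] at hi hj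
      by_contra hne
      rcases lt_or_gt_of_ne hne with hlt | hlt
      · exact hc _ hmem i j hi.1 hlt hj.2 hij
      · exact hc _ hmem j i hj.1 hlt hi.2 hij.symm
    have hsurj := Finset.surjOn_of_injOn_of_card_le _ hmaps hinj le_rfl
    obtain ⟨i, hi, h⟩ := hsurj (Finset.mem_coe.2 (Finset.mem_Icc.2 ⟨by norm_num, by norm_num⟩) :
      (11 : ℕ) ∈ ((Finset.Icc 1 14 : Finset ℕ) : Set ℕ))
    exact ⟨i, hi, h⟩
  rw [Finset.mem_Icc] at hi
  obtain ⟨h1, h2⟩ := hi
  have even : ∀ j, 1 ≤ j → j ≤ 7 → c' (((2 * j : ℕ) : ℚ) * (((9 : ℕ) : ℚ) / 2)) ≠ 11 := by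
    intro j hj1 hj2 h
    have hK : 9 * j ∈ K 14 := by
      apply mem_K
      interval_cases j <;> norm_num
    have e : (((2 * j : ℕ) : ℚ) * (((9 : ℕ) : ℚ) / 2)) = ((9 * j : ℕ) : ℚ) := by push_cast; ring
    rw [e, hext _ hK] at h
    exact c9 j hj1 hj2 h
  have odd : ∀ i i' y j z : ℕ, y ∣ 2 ^ 9 * 3 ^ 9 * 5 * 7 * 11 * 13 → 1 ≤ i' → i' ≤ 14 → 1 ≤ j →
      j ≤ 14 → i' ≠ j → j * y = 2 * z → z ∣ 2 ^ 9 * 3 ^ 9 * 5 * 7 * 11 * 13 → col z = 11 →
      i * 9 = i' * y → c' ((i : ℚ) * (((9 : ℕ) : ℚ) / 2)) ≠ 11 := by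
    intro i i' y j z hy hi1 hi2 hj1 hj2 hij hz hzd hcz he
    have e : ((i : ℚ) * (((9 : ℕ) : ℚ) / 2)) = ((i' : ℚ) * ((y : ℚ) / 2)) := by
      have : ((i * 9 : ℕ) : ℚ) = ((i' * y : ℕ) : ℚ) := by rw [he]
      push_cast at this ⊢
      linarith
    rw [e]
    exact excl y hy i' j z hi1 hi2 hj1 hj2 hij hz (mem_K hzd) hcz
  interval_cases i
  · exact odd 1 3 3 10 15 (by norm_num) (by norm_num) (by norm_num) (by norm_num) (by norm_num)
      (by norm_num) (by norm_num) (by norm_num) c15 (by norm_num) hi11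
  · exact even 1 (by norm_num) (by norm_num) hi11
  · exact odd 3 9 3 10 15 (by norm_num) (by norm_num) (by norm_num) (by norm_num) (by norm_num)
      (by norm_num) (by norm_num) (by norm_num) c15 (by norm_num) hi11
  · exact even 2 (by norm_num) (by norm_num) hi11
  · exact odd 5 9 5 6 15 (by norm_num) (by norm_num) (by norm_num) (by norm_num) (by norm_num)
      (by norm_num) (by norm_num) (by norm_num) c15 (by norm_num) hi11
  · exact even 3 (by norm_num) (by norm_num) hi11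
  · exact odd 7 9 7 8 28 (by norm_num) (by norm_num) (by norm_num) (by norm_num) (by norm_num)
      (by norm_num) (by norm_num) (by norm_num) c28 (by norm_num) hi11
  · exact even 4 (by norm_num) (by norm_num) hi11
  · exact odd 9 3 27 8 108 (by norm_num) (by norm_num) (by norm_num) (by norm_num) (by norm_num)
      (by norm_num) (by norm_num) (by norm_num) c108 (by norm_num) hi11
  · exact even 5 (by norm_num) (by norm_num) hi11
  · exact odd 11 9 11 2 11 (by norm_num) (by norm_num) (by norm_num) (by norm_num) (by norm_num)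
      (by norm_num) (by norm_num) (by norm_num) c11 (by norm_num) hi11
  · exact even 6 (by norm_num) (by norm_num) hi11
  · exact odd 13 9 13 12 78 (by norm_num) (by norm_num) (by norm_num) (by norm_num) (by norm_num)
      (by norm_num) (by norm_num) (by norm_num) c78 (by norm_num) hi11
  · exact even 7 (by norm_num) (by norm_num) hi11

/-- It is not true that for every `n ≥ 1` every `n`-satisfactory coloring of `K n` extends to an
`n`-satisfactory coloring of `hatK n`; it fails for `n = 14`. -/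
theorem result :
    (¬ ∀ n : ℕ, 0 < n → ∀ c : ℕ → ℕ, SatisfactoryK n c →
      ∃ c' : ℚ → ℕ, SatisfactoryHatK n c' ∧ ∀ x ∈ K n, c' (x : ℚ) = c x) ∧
    ∃ c : ℕ → ℕ, SatisfactoryK 14 c ∧
      ¬ ∃ c' : ℚ → ℕ, SatisfactoryHatK 14 c' ∧ ∀ x ∈ K 14, c' (x : ℚ) = c x := by
  refine ⟨fun h => ?_, not_extendable⟩
  obtain ⟨c, hc, hno⟩ := not_extendable
  exact hno (h 14 (by norm_num) c hc)

end Pool.Agent.Results.MP_bda3cd_nt.FourteenColors
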