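import Mathlib
import Pool.Agent.R369.SmoothColor

/-!
There is an 8-satisfactory colouring of the 7-smooth (= 8-smooth) numbers which does not extend
to an 8-satisfactory colouring of the group they generate: the element 35/2 sees all eight
colours among its neighbours in the monoid.
-/

namespace Pool.Agent.Results.MP_bda3cd_nt.NoExtension

/-- `K n`: the positive integers all of whose prime factors are at most `n`, as a set of
rational numbers. -/
def K (n : ℕ) : Set ℚ :=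
  {x | ∃ m : ℕ, 0 < m ∧ (∀ p : ℕ, p.Prime → p ∣ m → p ≤ n) ∧ x = m}

/-- `KHat n`: the quotients `a / b` with `a, b` in `K n`. -/
def KHat (n : ℕ) : Set ℚ :=
  {x | ∃ a ∈ K n, ∃ b ∈ K n, x = a / b}

/-- `c` is an `n`-satisfactory colouring of `X` (`X` is `K n` or `KHat n`). Only the values of
`c` on `X` matter. -/
def Satisfactory (n : ℕ) (X : Set ℚ) (c : ℚ → ℕ) : Prop :=
  (∀ x ∈ X, 1 ≤ c x ∧ c x ≤ n) ∧
  (∀ i : ℕ, 1 ≤ i → i ≤ n → c (i : ℚ) = i) ∧
  (∀ x ∈ X, ∀ i j : ℕ, 1 ≤ i → i < j → j ≤ n → c ((i : ℚ) * x) ≠ c ((j : ℚ) * x))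

/-- The colouring `c'` of `KHat n` extends the colouring `c` of `K n`. -/
def Extends (n : ℕ) (c' c : ℚ → ℕ) : Prop :=
  ∀ x ∈ K n, c' x = c x

theorem mem_K (m : ℕ) (a b c d : ℕ) (hm : m = 2 ^ a * 3 ^ b * 5 ^ c * 7 ^ d) :
    (m : ℚ) ∈ K 8 := by
  refine ⟨m, ?_, ?_, rfl⟩
  · rw [hm]
    positivity
  · intro p hp hpm
    rw [hm] at hpm
    rcases (Nat.Prime.dvd_mul hp).1 hpm with h | h
    · rcases (Nat.Prime.dvd_mul hp).1 h with h | h
      · rcases (Nat.Prime.dvd_mul hp).1 h with h | h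
        · have := Nat.le_of_dvd (by norm_num) (hp.dvd_of_dvd_pow h)
          omega
        · have := Nat.le_of_dvd (by norm_num) (hp.dvd_of_dvd_pow h)
          omega
      · have := Nat.le_of_dvd (by norm_num) (hp.dvd_of_dvd_pow h)
        omega
    · have := Nat.le_of_dvd (by norm_num) (hp.dvd_of_dvd_pow h)
      omega

open Pool.Agent.R369.Smooth in
/-- There is an 8-satisfactory colouring of `K 8` that no 8-satisfactory colouring of `KHat 8`
extends. -/
theorem result : ∃ c : ℚ → ℕ, Satisfactory 8 (K 8) c ∧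
    ¬ ∃ c' : ℚ → ℕ, Satisfactory 8 (KHat 8) c' ∧ Extends 8 c' c := by
  refine ⟨col, ⟨?_, ?_, ?_⟩, ?_⟩
  · intro x _
    exact tbl_le _ _ _ _
  · intro i hi hi8
    exact col_one i hi hi8
  · rintro x ⟨m, hm, _, rfl⟩ i j hi hij hj
    exact col_ne i j hi hij hj m hm
  · rintro ⟨c', ⟨hr, _, hne⟩, hext⟩
    obtain ⟨h14, h35, h10, h21, h5, h20, h7, h70⟩ := col_vals
    have m14 : (14 : ℚ) ∈ K 8 := by exact_mod_cast mem_K 14 1 0 0 1 (by norm_num)
    have m35 : (35 : ℚ) ∈ K 8 := by exact_mod_cast mem_K 35 0 0 1 1 (by norm_num)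
    have m10 : (10 : ℚ) ∈ K 8 := by exact_mod_cast mem_K 10 1 0 1 0 (by norm_num)
    have m21 : (21 : ℚ) ∈ K 8 := by exact_mod_cast mem_K 21 0 1 0 1 (by norm_num)
    have m5 : (5 : ℚ) ∈ K 8 := by exact_mod_cast mem_K 5 0 0 1 0 (by norm_num)
    have m20 : (20 : ℚ) ∈ K 8 := by exact_mod_cast mem_K 20 2 0 1 0 (by norm_num)
    have m7 : (7 : ℚ) ∈ K 8 := by exact_mod_cast mem_K 7 0 0 0 1 (by norm_num)
    have m70 : (70 : ℚ) ∈ K 8 := by exact_mod_cast mem_K 70 1 0 1 1 (by norm_num)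
    have m2 : (2 : ℚ) ∈ K 8 := by exact_mod_cast mem_K 2 1 0 0 0 (by norm_num)
    have hu : ((35 : ℚ) / 2) ∈ KHat 8 := ⟨35, m35, 2, m2, rfl⟩
    have hz2 : ((7 : ℚ) / 2) ∈ KHat 8 := ⟨7, m7, 2, m2, rfl⟩
    have hz3 : ((5 : ℚ) / 2) ∈ KHat 8 := ⟨5, m5, 2, m2, rfl⟩
    obtain ⟨hr1, hr8⟩ := hr _ hu
    -- 14 = 4 * (7 / 2) and 35 / 2 = 5 * (7 / 2)
    have e14 := hne _ hz2 4 5 (by norm_num) (by norm_num) (by norm_num)
    have e21 := hne _ hz2 5 6 (by norm_num) (by norm_num) (by norm_num)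
    have e7 := hne _ hz2 2 5 (by norm_num) (by norm_num) (by norm_num)
    have e10 := hne _ hz3 4 7 (by norm_num) (by norm_num) (by norm_num)
    have e5 := hne _ hz3 2 7 (by norm_num) (by norm_num) (by norm_num)
    have e20 := hne _ hz3 7 8 (by norm_num) (by norm_num) (by norm_num)
    have e35 := hne _ hu 1 2 (by norm_num) (by norm_num) (by norm_num)
    have e70 := hne _ hu 1 4 (by norm_num) (by norm_num) (by norm_num)
    norm_num at e14 e21 e7 e10 e5 e20 e35 e70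
    rw [hext _ m14, h14] at e14
    rw [hext _ m21, h21] at e21
    rw [hext _ m7, h7] at e7
    rw [hext _ m10, h10] at e10
    rw [hext _ m5, h5] at e5
    rw [hext _ m20, h20] at e20
    rw [hext _ m35, h35] at e35
    rw [hext _ m70, h70] at e70
    omega

end Pool.Agent.Results.MP_bda3cd_nt.NoExtension
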